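import Pool.Agent.MWF.Stmts

set_option autoImplicit false

namespace Pool.Agent.MWF.H77

open Pool.Agent.Helper14_MV Pool.Agent.Helper2_MV

theorem flat_rep (k c : ℕ) : (List.replicate k c).flatMap (fun _ => [0]) = List.replicate k 0 := by
  induction k with
  | zero => rfl
  | succ k ih =>
    rw [List.replicate_succ, List.flatMap_cons, ih, List.replicate_succ]
    rfl

theorem key (hpow : PowStmt) (β : FIC) (hβ : Ap β) (u v : List ℕ) (h : RR β u v) (c : ℕ)
    (hu : c ∈ u) : c ∈ v := by
  by_contra hv
  have h1 := h.filter (fun d => d == c)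
  have e1 : u.filter (fun d => d == c) = List.replicate (u.count c) c := List.filter_beq c
  have e2 : v.filter (fun d => d == c) = [] := by
    rw [List.filter_eq_nil_iff]
    intro a ha hac
    have : a = c := by simpa using hac
    exact hv (this ▸ ha)
  rw [e1, e2] at h1
  have hk : 1 ≤ u.count c := List.one_le_count_iff.mpr hu
  have h2 := h1.sub (fun _ => [0])
  rw [flat_rep] at h2
  have h3 := h2.append (RR.refl (β := β) [0])
  have e3 : List.replicate (u.count c) 0 ++ [0] = List.replicate (u.count c + 1) 0 := by
    rw [List.replicate_succ']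
  rw [e3] at h3
  have h4 := hpow β hβ.sq 0 (u.count c + 1) 2 (by omega) (by omega)
  exact hβ.ncr (β.trans (β.symm h3) h4)

theorem ctt (hpow : PowStmt) : CttStmt := by
  intro β hβ u v h c
  exact ⟨key hpow β hβ u v h c, key hpow β hβ v u h.symm c⟩

end Pool.Agent.MWF.H77
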